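import Pool.Agent.H113.MS.Converse

/-!
# Matroidal shifted hypergraphs are exactly the initial lex-segments

`KS n k` is the type of the `k`-subsets of `[n]` (here `Fin n`). Over any field `F`, let
`K = F(a_{ij})`, `f_i = ∑ j, a_{ij} e_j` in `V = K ^ n`, and let `shift F G` be the exterior
algebraic shifting `Δᵉ(G)` of a family `G` of `k`-subsets: the set of the `S` such that `f_S` is not
in `W_G + span {f_R : R <_lex S}`, where `W_G` is spanned by the `e_T` with `T` not in `G`
(all in the exterior power of `V`). A shifted family `H` is matroidal if the families `G` with
`Δᵉ(G) = H` are the bases of a matroid on the set of all `k`-subsets of `[n]`.

For all `k` and `n` and for every field, a shifted family is matroidal if and only if it is an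
initial segment of the lexicographic order. The direction from right to left is a result of Kalai;
the other one was open for `k ≥ 4`. The definitions are in `Pool/Agent/H113/MS/Defs.lean`.

Proof of the new direction. For an initial lex-segment `L` the number of members of `Δᵉ(G) ∩ L` is
the rank of the submatrix of the compound of the generic matrix with rows `L` and columns `G`. If
`y` is above (componentwise) some set of `L` which is not in `H`, and `x` is below some member of
`H` which is not in `L`, then this rank is larger for `H - x + y` than for `H`; so `H - x + y` is
not a base. Let `Q` be the family of those `x` in `H` and of the `y` not in `H` which are not of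
this kind. Then in the matroid the complement of `Q` is spanned by its members in `H`, so that
every base, in particular every image of `H` under a permutation of `[n]`, has at least as many
members in `Q` as `H`. If `H` is not an initial lex-segment, a suitable cut `L` makes `Q` closed
under the shifts inside of a block `[t, n]`, and a strict form of the Harris inequality for
`s`-subsets, averaged over the permutations of the block, gives a permutation for which this is
false.
-/

set_option autoImplicit false

namespace Pool.Agent.Results.MP_47a6f3_co.MatroidalShifted

open Pool.Agent.H113.MS

/-- **A shifted `k`-uniform hypergraph on `[n]` is matroidal if and only if it is an initial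
lex-segment**, for all `k` and `n` and over every field. -/
theorem result {F : Type*} [Field F] {n k : ℕ} (H : Set (KS n k)) (hH : Shifted H) :
    Matroidal F H ↔ InitialLex H :=
  ⟨initialLex_of_matroidal F hH, matroidal_of_initialLex F⟩

end Pool.Agent.Results.MP_47a6f3_co.MatroidalShifted
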